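import Mathlib
import Pool.Agent.Y368.Lie.Matrix

set_option autoImplicit false

/-!
# MP_eba1ef_gt: bodies with a large compact Lie group of symmetries

Let `K` be a convex body in a Euclidean space `E` of dimension `d ≥ 2`. It need not be symmetric:
`K ⊆ -a K` for some `a` (every body with `0` in its interior has this property for large `a`, and
the symmetric bodies have it for `a = 1`).

1. Rotations. Suppose that `K` is invariant under an orthogonal representation of `SO(n)` (`n ≥ 3`)
   on `E` without nonzero fixed vectors, whose matrix coefficients are polynomials of degree at most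
   `k` in the entries of the rotation. Put `s = (n - 2) / (960 k² (1 + a)²)`. Then `K` is covered by
   `1 + 13 d log(2d²+2d+1) 2^d e^(-s)` translates of its interior, and by less than `2^d` if
   `s ≥ 5 + 2 log d`. So the conjecture is true, with strict inequality, for all these bodies in all
   dimensions `d ≤ exp(s/2 - 5/2)`: the dimension may be exponential in `n`. Examples are the unit
   balls of all norms of `n × m` matrices with `‖U A‖ = ‖A‖` for all rotations `U`, of all norms of
   trace-free matrices with `‖U A U⁻¹‖ = ‖A‖`, of all tensor norms of odd order of the Euclidean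
   space, and of the invariant gauges (not symmetric) of asymmetry at most `a` on these spaces.
2. Compact Lie algebras. The same is true, with `s = γ / (1920 κ² (1 + a)²)`, if `K` is invariant
   under the one-parameter groups generated by a compact semisimple Lie algebra of skew-symmetric
   operators of `E` without a common kernel. Here the Lie algebra is given by an orthonormal basis
   `X_i`, with respect to some invariant inner product, such that the Killing form is at least `γ`
   (in absolute value), and `κ` is the largest norm of an operator `∑ a_i X_i` with `∑ a_i² = 1`.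
3. Bodies of matrices. If `K` is a convex body in the space of real `n × m` matrices (`n ≥ 3`) with
   `U K = K` for all rotations `U ∈ SO(n)` then this holds with `s = (n - 4) / 3840`, and nothing has
   to be assumed about symmetry: `SO(n)` forces `K ⊆ -n/(n-2) K`. So `c(K) < 2^(nm)` for all `m` up
   to `exp(n/7680 - 5/2)/n` or so.

The proof. (a) By Bernstein's inequality for trigonometric polynomials, applied to the odd part of
`⟪y, exp(tX) x⟫ ∈ [-a, 1]` along the one-parameter groups, the functionals `y` with `⟪y, ·⟫ ≤ 1` on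
`K` satisfy `∑ ⟪y, X_i x⟫² ≤ κ² (1+a)²/4` on `K`. (b) Let `y = C z` with the Casimir operator
`C = -∑ X_i²`. By a maximum principle on `K` for the function `∑ ⟪z, X_i x⟫²`, whose Bochner formula
contains the Killing form as a spectral gap, `∑ ⟪z, X_i x⟫² ≤ (2 κ (1+a) / γ)²` on `K`.
(c) Integrating by parts along the flows in the exponential moments of `⟪y, ·⟫` on `K` we get that
`⟪y, ·⟫` is subgaussian on `K` with parameter `κ² (1+a)² / γ`: so all functionals are concentrated,
and (d) the covering theorem for bodies with thin supporting slabs, in the version for bodies which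
need not be symmetric (`AsymmetricThinSlabs`), applies. For (1), `SO(n)` is generated by
one-parameter groups, the derived representation has `κ² ≤ 2 k²` and `γ = 4 (n - 2)` for the basis
`E_ab - E_ba`. For (3), the mean of the `n` diagonal matrices with one entry `1` and the others `-1`
(for odd `n`; `-1` itself is a rotation for even `n`) is `-(n-2)/n`.

The steps (b), (c) and the analysis of the representations are those of the theorem
`MP_5e7226_co.CompactLieSymmetries` (separation of faces of symmetric bodies) of the starting files;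
new are the bodies which are not symmetric and part 3.
-/

namespace Pool.Agent.Results.MP_eba1ef_gt.CompactLieSymmetries

open scoped InnerProductSpace
open Module

/-- The bounds of the theorem, in terms of the parameter `s`: `K` is covered by at most
`1 + 13 d log(2d²+2d+1) 2^d e^(-s)` translates of its interior, and by less than `2^d` if
`s ≥ 5 + 2 log d`, where `d` is the dimension. -/
def FewTranslates {E : Type*} [NormedAddCommGroup E] [InnerProductSpace ℝ E] (K : Set E)
    (s : ℝ) : Prop :=
  ∃ T : Finset E, K ⊆ ⋃ t ∈ T, (fun x => t + x) '' interior K ∧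
    (T.card : ℝ) ≤ 1 + 13 * finrank ℝ E * Real.log (2 * finrank ℝ E ^ 2 + 2 * finrank ℝ E + 1)
      * 2 ^ finrank ℝ E * Real.exp (-s) ∧
    (5 + 2 * Real.log (finrank ℝ E) ≤ s → T.card < 2 ^ finrank ℝ E)

/-- `K` is a convex body with `K ⊆ -a K`. -/
def IsBody {E : Type*} [NormedAddCommGroup E] [InnerProductSpace ℝ E] (K : Set E) (a : ℝ) : Prop :=
  Convex ℝ K ∧ IsCompact K ∧ (interior K).Nonempty ∧ 0 < a ∧ ∀ x ∈ K, -(a⁻¹ • x) ∈ K

/-- `ρ` is a representation of `SO(n)` without nonzero fixed vectors the matrix coefficients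
`⟪y, ρ g x⟫` of which are polynomials of degree at most `k` in the entries of `g`. -/
def IsPolynomialRep {E : Type*} [NormedAddCommGroup E] [InnerProductSpace ℝ E] (n k : ℕ)
    (ρ : Matrix.specialOrthogonalGroup (Fin n) ℝ →* (E ≃ₗᵢ[ℝ] E)) : Prop :=
  (∀ x y : E, ∃ P : MvPolynomial (Fin n × Fin n) ℝ, P.totalDegree ≤ k ∧
    ∀ g : Matrix.specialOrthogonalGroup (Fin n) ℝ, ⟪y, ρ g x⟫_ℝ
      = MvPolynomial.eval (fun p => (g : Matrix (Fin n) (Fin n) ℝ) p.1 p.2) P) ∧
  ∀ x : E, (∀ g, ρ g x = x) → x = 0

/-- The operators `X i` are an orthonormal basis (with respect to an invariant inner product; the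
structure constants are `c`) of a Lie algebra of skew-symmetric operators without a common kernel,
the Killing form of which is at least `γ` in absolute value; `κ` bounds the norms of the operators
`∑ b_i X_i` with `∑ b_i² ≤ 1`. -/
def IsSemisimple {E : Type*} [NormedAddCommGroup E] [InnerProductSpace ℝ E] {ι : Type} [Fintype ι]
    (X : ι → E →L[ℝ] E) (c : ι → ι → ι → ℝ) (γ κ : ℝ) : Prop :=
  (∀ i x y, ⟪X i x, y⟫_ℝ = -⟪x, X i y⟫_ℝ) ∧
  (∀ i j x, X i (X j x) - X j (X i x) = ∑ k, c i j k • X k x) ∧
  (∀ i j k, c i j k = -c k j i) ∧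
  (∀ v : ι → ℝ, γ * ∑ k, v k ^ 2 ≤ ∑ i, ∑ j, (∑ k, c i j k * v k) ^ 2) ∧
  (∀ x, (∀ i, X i x = 0) → x = 0) ∧
  (∀ b : ι → ℝ, ∑ i, b i ^ 2 ≤ 1 → ∀ x, ‖∑ i, b i • X i x‖ ≤ κ * ‖x‖)

/-- The product `U A` of a matrix `U ∈ SO(n)` and an `n × m` matrix `A`. -/
noncomputable def rotate {n m : ℕ} (U : Matrix.specialOrthogonalGroup (Fin n) ℝ)
    (A : EuclideanSpace ℝ (Fin n × Fin m)) : EuclideanSpace ℝ (Fin n × Fin m) :=
  WithLp.toLp 2 fun p => ∑ j, (U : Matrix (Fin n) (Fin n) ℝ) p.1 j * A (j, p.2)

theorem result :
    -- bodies in a Euclidean space, possibly not symmetric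
    (∀ (E : Type) [NormedAddCommGroup E] [InnerProductSpace ℝ E] [FiniteDimensional ℝ E]
      (K : Set E) (a : ℝ), 2 ≤ finrank ℝ E → IsBody K a →
      -- 1. invariance under a representation of `SO(n)` of degree at most `k`
      (∀ n k : ℕ, 3 ≤ n → 1 ≤ k → ∀ ρ : Matrix.specialOrthogonalGroup (Fin n) ℝ →* (E ≃ₗᵢ[ℝ] E),
        IsPolynomialRep n k ρ → (∀ g, ∀ x ∈ K, ρ g x ∈ K) →
        FewTranslates K ((n - 2) / (960 * k ^ 2 * (1 + a) ^ 2))) ∧
      -- 2. invariance under a compact semisimple Lie algebra of operators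
      (∀ (ι : Type) [Fintype ι] (X : ι → E →L[ℝ] E) (c : ι → ι → ι → ℝ) (γ κ : ℝ), 0 < γ → 0 < κ →
        IsSemisimple X c γ κ →
        (∀ b : ι → ℝ, ∀ x ∈ K, NormedSpace.exp (∑ i, b i • X i) x ∈ K) →
        FewTranslates K (γ / (1920 * κ ^ 2 * (1 + a) ^ 2)))) ∧
    -- 3. convex bodies of matrices invariant under the rotations from the left
    (∀ n m : ℕ, 3 ≤ n → 1 ≤ m → ∀ K : Set (EuclideanSpace ℝ (Fin n × Fin m)), Convex ℝ K →
      IsCompact K → (interior K).Nonempty →
      (∀ U : Matrix.specialOrthogonalGroup (Fin n) ℝ, ∀ A ∈ K, rotate U A ∈ K) →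
      FewTranslates K (((n : ℝ) - 4) / 3840)) := by
  refine ⟨?_, ?_⟩
  · rintro E _ _ _ K a hd ⟨hK, hKc, hKi, ha, hKa⟩
    let _ : MeasurableSpace E := borel E
    have _ : BorelSpace E := ⟨rfl⟩
    refine ⟨fun n k hn hk ρ hρ hinv => ?_, fun ι _ X c γ κ hγ hκ hX hinv => ?_⟩
    · obtain ⟨T, hT1, hT2⟩ := Y368.Lie.cover_so' hn k hk ρ hρ.1 hρ.2 K hd hK hKc hKi a ha hKa hinv
      exact ⟨T, hT1, hT2, fun hs => Y368.Lie.strict _ hd _ _ hT2 hs⟩
    · obtain ⟨hX, hc, hanti, hkill, hfix, hn⟩ := hX
      obtain ⟨T, hT1, hT2⟩ := Y368.Lie.cover_casimir' X hX (TH591.Lie.casimir_comm X c hc hanti) γ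
        hγ (TH591.Lie.kill_bound X c hc γ hkill) hfix κ hκ hn K hd hK hKc hKi a ha hKa hinv
      exact ⟨T, hT1, hT2, fun hs => Y368.Lie.strict _ hd _ _ hT2 hs⟩
  · intro n m hn hm K hK hKc hKi hinv
    obtain ⟨T, hT1, hT2⟩ := Y368.Lie.cover_matrix hn hm K hK hKc hKi hinv
    have hd : 2 ≤ finrank ℝ (EuclideanSpace ℝ (Fin n × Fin m)) := by
      have : finrank ℝ (EuclideanSpace ℝ (Fin n × Fin m)) = n * m := by simp
      rw [this]
      nlinarith
    exact ⟨T, hT1, hT2, fun hs => Y368.Lie.strict _ hd _ _ hT2 hs⟩

end Pool.Agent.Results.MP_eba1ef_gt.CompactLieSymmetries
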