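import Mathlib
import Pool.Agent.Y512.S4.Main34
import Pool.Agent.Y512.S4.Euclid

set_option autoImplicit false

/-!
# MP_eba1ef_gt: thirty-four translates suffice for centrally symmetric bodies in `ℝ⁴`

Sketch of the proof. Among the quadruples of functionals of the polar body take those of maximal
determinant, and among them one of maximal Euclidean length. In the coordinates given by them the
body lies in the cube `[-1,1]⁴`, contains the unit vectors, has no sharp contact with the cube, and
all `2 × 2` minors of pairs of functionals of the polar body are at most one. By the exit lemma it is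
enough to illuminate the 24 squares of the cube. By the bound for the minors, for each pair
`i < j` and all `a, b > 0` with `1/a + 1/b = 3` one of the points `a (e i - e j)`, `b (e i + e j)`
belongs to the body. Up to signed permutations this leads to twelve classes of bodies; for each of
them 34 explicit directions illuminate the squares, which is checked on 160 to 190 trapezoids.
-/

namespace Pool.Agent.Results.MP_eba1ef_gt.SymmetricFourSpace

/-- **Main theorem.** Every convex body in `ℝ⁴` with a centre of symmetry is covered by at most 34
translates of its interior. -/
theorem result (K : Set (EuclideanSpace ℝ (Fin 4))) (hK : Convex ℝ K) (hKc : IsCompact K)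
    (hKi : (interior K).Nonempty) (c : EuclideanSpace ℝ (Fin 4))
    (hKs : ∀ x ∈ K, (2 : ℝ) • c - x ∈ K) :
    ∃ T : Finset (EuclideanSpace ℝ (Fin 4)), T.card ≤ 34 ∧
      K ⊆ ⋃ t ∈ T, (fun x => t + x) '' interior K :=
  Pool.Agent.Y512.covN_centre (fun _ h1 h2 h3 h4 => Pool.Agent.Y512.S4.covN34 h1 h2 h3 h4)
    K hK hKc hKi c hKs

end Pool.Agent.Results.MP_eba1ef_gt.SymmetricFourSpace
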