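import Mathlib
import Pool.Agent.Y512.Main13

set_option autoImplicit false

/-!
# MP_eba1ef_gt: thirteen translates suffice in `ℝ³`

Every convex body `K` in `ℝ³` is covered by at most 13 translates of its interior: `c_3 ≤ 13`.

Sketch of the proof. Among the triples of linear functionals of width at most one on `K` take those
of maximal determinant (the circumscribed parallelepipeds of least volume) and among them one of
maximal Euclidean length. After an affine map `K` lies in the cube `[-1,1]³`, it contains a chord
of length two parallel to each axis, and for each axis at most one of the two ends of the chord is
a sharp contact (its tangent cone meets the facet plane only in the apex). By the exit lemma it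
is enough to illuminate the 1-skeleton of the cube and the at most three sharp contacts. The
convex hull of the three chords contains a translate of every box with edge lengths of sum at most
two. Thirteen boxes with edge sums less than two that cover the skeleton and the three contacts are
placed along a Hamiltonian path of the cube graph (8 corners, 3 full edges, 2 boxes that cover a
contact and more than half of the nearest edge); if two contacts are centres of their facets, two
of the boxes are replaced by directions that illuminate a contact and almost a whole edge.
-/

namespace Pool.Agent.Results.MP_eba1ef_gt.ThirteenInSpace

/-- **Main theorem.** Every convex body in `ℝ³` is covered by at most 13 translates of its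
interior. -/
theorem result (K : Set (EuclideanSpace ℝ (Fin 3))) (hK : Convex ℝ K) (hKc : IsCompact K)
    (hKi : (interior K).Nonempty) :
    ∃ T : Finset (EuclideanSpace ℝ (Fin 3)), T.card ≤ 13 ∧
      K ⊆ ⋃ t ∈ T, (fun x => t + x) '' interior K :=
  Pool.Agent.Y512.covN13 K hK hKc hKi

end Pool.Agent.Results.MP_eba1ef_gt.ThirteenInSpace
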