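import Mathlib
import Pool.Agent.TH591.Un.Final
import Pool.Agent.TH591.Un.Lower

set_option autoImplicit false

/-!
# MP_eba1ef_gt: unconditional bodies without large cube-like sections

Let `K` be an unconditional convex body in `ℝ^d` (symmetric about all coordinate hyperplanes) and
let `h i` be its half-axes: `K` is contained in the box with the half-sides `h i` and contains the
points `± h_i e_i`. We prove:

1. If the average over `K` of `(1/d) ∑ |x_i| / h_i` is at most `M` then `K` is covered by
   `1 + 13 d log(4d+1) 2^d e^(-2s)` translates of its interior, `s = 1 / (29600 √M)`, and by less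
   than `2^d` if `s ≥ 5` and `s ≥ log d`.
2. Dichotomy: for every `θ > 0`, either there is a set `A` of at least `θ d` coordinates such that
   the section of `K` by the coordinate subspace of `A` (which is also the projection to it, and is
   contained in the box with the half-sides `h i`, `i ∈ A`) contains the box with the half-sides
   `θ h_i`, or the bounds of (1) hold with `M = 2 θ`.
3. For given `q` and `C`, `c(K) < 2^d` in all sufficiently high dimensions for all unconditional
   bodies with `|A| ≤ (C ‖∑_{i ∈ A} h_i e_i‖_K)^q` for all `A`.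

So `c(K) < 2^d` for an unconditional body `K` unless it has a coordinate section, of dimension
at least `c d / log² d`, whose distance to a cube is at most `C log² d`; the conjecture says that
`c(K) = 2^d` only for parallelepipeds. In (3) we have for instance the unit balls of the `ℓ_q`,
`q < ∞`, of Orlicz and Lorentz norms, etc. with lower estimates.

The proof: let `g` be the norm with the unit ball `K`, and let `x`, `v` be independent random vectors
with the density `e^(-g) / Z`. (a) By the symmetry of `K` the coordinates of `v` are uncorrelated, so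
`E (Dg(x)[v])^2 = ∑ E (D_i g(x))^2 E v_i^2`. (b) Here `(D_i g)^2 ≤ g(e_i) |D_i g|`. (c) The function
`e^(-g)` is unimodal in each coordinate, so `E |D_i g(x)| = 2 r_i(0) / Z`, where `r_i` is the marginal
density (not normalized) of the `i`-th coordinate. (d) `r_i` is even and log-concave, therefore
`r_i(0) E v_i^2 ≤ 200 Z E |v_i|`. (e) By homogeneity the average over `z, z' ∈ K` of
`(Dg(z)[z'])^2` is at most `400 / (d + 2)` times the sum of the averages of `|z_i| / h_i` over `K`.
So `K` has small flatness, and the covering theorem for bodies with small flatness (`ThinSlabs`)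
applies. (f) If there is no section as above, then for each `x` in `K` less than `θ d` of the numbers
`|x_i| / h_i ≤ 1` are at least `θ`, hence their sum is at most `2 θ d`.

This is the covering form of the theorem `MP_5e7226_co.UnconditionalWithoutCrossBody` of the
starting files (separation of the faces of unconditional bodies without large cross-bodies), together
with its sharper version (1) in terms of the average.
-/

namespace Pool.Agent.Results.MP_eba1ef_gt.UnconditionalOrCubeLike

open MeasureTheory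

/-- `K` is an unconditional convex body. -/
def IsUnconditional {d : ℕ} (K : Set (EuclideanSpace ℝ (Fin d))) : Prop :=
  Convex ℝ K ∧ IsCompact K ∧ (interior K).Nonempty ∧
    ∀ x ∈ K, ∀ y : EuclideanSpace ℝ (Fin d), (∀ i, |y i| = |x i|) → y ∈ K

/-- `h i` is the half-axis of `K` in the direction `e_i`: the largest `t` with `t e_i ∈ K`. -/
def HasHalfAxes {d : ℕ} (K : Set (EuclideanSpace ℝ (Fin d))) (h : Fin d → ℝ) : Prop :=
  ∀ i, IsGreatest {t : ℝ | (EuclideanSpace.single i t : EuclideanSpace ℝ (Fin d)) ∈ K} (h i)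

/-- The section of `K` by the coordinate subspace of `A` contains the box with the half-sides
`θ h i`, `i ∈ A`. -/
def ContainsBox {d : ℕ} (K : Set (EuclideanSpace ℝ (Fin d))) (h : Fin d → ℝ) (θ : ℝ)
    (A : Finset (Fin d)) : Prop :=
  ∀ x : EuclideanSpace ℝ (Fin d), (∀ i, |x i| ≤ if i ∈ A then θ * h i else 0) → x ∈ K

/-- The bounds: `K` is covered by at most `1 + 13 d log(4d+1) 2^d e^(-2s)` translates of its
interior, and by less than `2^d` if `s ≥ 5` and `s ≥ log d`. -/
def FewTranslates {d : ℕ} (K : Set (EuclideanSpace ℝ (Fin d))) (s : ℝ) : Prop :=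
  ∃ T : Finset (EuclideanSpace ℝ (Fin d)), K ⊆ ⋃ t ∈ T, (fun x => t + x) '' interior K ∧
    (T.card : ℝ) ≤ 1 + 13 * d * Real.log (4 * d + 1) * 2 ^ d * Real.exp (-(2 * s)) ∧
    (5 ≤ s → Real.log d ≤ s → T.card < 2 ^ d)

/-- **Main theorem.** -/
theorem result :
    -- 1. the bound in terms of the average
    (∀ d : ℕ, 2 ≤ d → ∀ (K : Set (EuclideanSpace ℝ (Fin d))) (h : Fin d → ℝ),
      IsUnconditional K → HasHalfAxes K h → ∀ M : ℝ, 0 < M →
      ⨍ x in K, ∑ i, |x i| / h i ≤ M * d → FewTranslates K (1 / (29600 * √M))) ∧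
    -- 2. the dichotomy
    (∀ d : ℕ, 2 ≤ d → ∀ (K : Set (EuclideanSpace ℝ (Fin d))) (h : Fin d → ℝ),
      IsUnconditional K → HasHalfAxes K h → ∀ θ : ℝ, 0 < θ →
      (∃ A : Finset (Fin d), θ * d ≤ A.card ∧ ContainsBox K h θ A) ∨
        FewTranslates K (1 / (29600 * √(2 * θ)))) ∧
    -- 3. bodies with lower estimates, in high dimensions
    (∀ q C : ℝ, 0 < q → 0 < C → ∃ d₀ : ℕ, ∀ d : ℕ, d₀ ≤ d →
      ∀ (K : Set (EuclideanSpace ℝ (Fin d))) (h : Fin d → ℝ),
        IsUnconditional K → HasHalfAxes K h →
        (∀ A : Finset (Fin d), (A.card : ℝ) ≤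
          (C * gauge K (WithLp.toLp 2 fun i => if i ∈ A then h i else 0)) ^ q) →
        ∃ T : Finset (EuclideanSpace ℝ (Fin d)),
          K ⊆ ⋃ t ∈ T, (fun x => t + x) '' interior K ∧ T.card < 2 ^ d) := by
  have main : ∀ d : ℕ, 2 ≤ d → ∀ (K : Set (EuclideanSpace ℝ (Fin d))) (h : Fin d → ℝ),
      IsUnconditional K → HasHalfAxes K h → ∀ M : ℝ, 0 < M →
      ⨍ x in K, ∑ i, |x i| / h i ≤ M * d → FewTranslates K (1 / (29600 * √M)) := by
    rintro d hd K h ⟨hK, hKc, hKi, hKu⟩ hh M hM hmean
    obtain ⟨T, h1, h2, h3⟩ := TH591.Un.cover_mean d hd K hK hKc hKi hKu h hh M _ hM rfl hmean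
    exact ⟨T, h1, h2, h3⟩
  have main2 : ∀ d : ℕ, 2 ≤ d → ∀ (K : Set (EuclideanSpace ℝ (Fin d))) (h : Fin d → ℝ),
      IsUnconditional K → HasHalfAxes K h → ∀ θ : ℝ, 0 < θ →
      (∃ A : Finset (Fin d), θ * d ≤ A.card ∧ ContainsBox K h θ A) ∨
        FewTranslates K (1 / (29600 * √(2 * θ))) := by
    intro d hd K h hKun hh θ hθ
    by_cases hno : ∃ A : Finset (Fin d), θ * d ≤ A.card ∧ ContainsBox K h θ A
    · exact Or.inl hno
    · right
      obtain ⟨hK, hKc, hKi, hKu⟩ := hKun
      refine main d hd K h ⟨hK, hKc, hKi, hKu⟩ hh (2 * θ) (by positivity) ?_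
      refine TH591.Un.average_le hK hKc hKi hKu _ fun z hz => ?_
      refine TH591.Un.sum_of_noBox hK hKc hKi hKu hh θ hθ (fun A hA => ?_) z hz
      by_contra hcon
      push Not at hcon
      exact hno ⟨A, hA, fun x hx => hcon x hx⟩
  refine ⟨main, main2, fun q C hq hC => ?_⟩
  obtain ⟨d₀, hd₀⟩ := TH591.Un.exists_theta q C hq hC
  refine ⟨max d₀ 2, fun d hd K h hK hh hlow => ?_⟩
  obtain ⟨θ, s, hθ, hs, h5, hlog, hbig⟩ := hd₀ d (le_trans (le_max_left _ _) hd)
  have hh0 : ∀ i, 0 ≤ h i := by
    intro i
    have h0 : (0 : EuclideanSpace ℝ (Fin d)) ∈ K :=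
      mem_of_mem_nhds (TH591.Un.nhds_K hK.1 hK.2.2.1 hK.2.2.2)
    have e : (EuclideanSpace.single i (0 : ℝ) : EuclideanSpace ℝ (Fin d)) = 0 := by
      ext j
      simp
    refine (hh i).2 ?_
    show (EuclideanSpace.single i (0 : ℝ) : EuclideanSpace ℝ (Fin d)) ∈ K
    rw [e]
    exact h0
  rcases main2 d (le_trans (le_max_right _ _) hd) K h hK hh θ hθ with ⟨A, hA, hbox⟩ | hT
  · obtain ⟨x, hx, hxK⟩ := TH591.Un.noBox_of_lower d K h hh0 q C θ hq hC hθ hlow hbig A hA
    exact absurd (hbox x hx) hxK
  · rw [← hs] at hT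
    obtain ⟨T, h1, -, h3⟩ := hT
    exact ⟨T, h1, h3 h5 hlog⟩

end Pool.Agent.Results.MP_eba1ef_gt.UnconditionalOrCubeLike
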